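import Mathlib

set_option autoImplicit false

namespace Pool.Agent.Results.MP_83934b_an.Splits

open Set Filter Topology MeasureTheory Cardinal

/-- The circle `ℝ / ℤ`. -/
abbrev S : Type := AddCircle (1 : ℝ)

/-- Representatives of interval exchanges with flips: permutations of the circle which, near
every point outside a finite set, have the form `y ↦ y + c` or `y ↦ -y + c`. -/
def IsIET (f : Equiv.Perm S) : Prop :=
  ∃ F : Set S, F.Finite ∧ ∀ x, x ∉ F → ∃ c : S,
    (∀ᶠ y in 𝓝 x, f y = y + c) ∨ (∀ᶠ y in 𝓝 x, f y = -y + c)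

/-- The group `Ĝ`: the permutation and its inverse are Lebesgue measurable and the permutation
preserves Lebesgue measure. -/
def InGhat (g : Equiv.Perm S) : Prop :=
  (∀ A : Set S, NullMeasurableSet A volume →
    NullMeasurableSet (g ⁻¹' A) volume ∧ volume (g ⁻¹' A) = volume A) ∧
  ∀ A : Set S, NullMeasurableSet A volume → NullMeasurableSet (g.symm ⁻¹' A) volume

instance : Infinite S := by
  haveI : Infinite (Ico (0 : ℝ) (0 + 1)) := (Ico_infinite (by norm_num)).to_subtype
  exact Infinite.of_injective _ (AddCircle.equivIco (1 : ℝ) 0).symm.injective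

/-- locally a measure preserving homeomorphism -/
def Loc (f : Equiv.Perm S) (x : S) : Prop :=
  ∃ h : S ≃ₜ S, MeasurePreserving h ∧ MeasurePreserving h.symm ∧ ∀ᶠ y in 𝓝 x, f y = h y

def Good (f : Equiv.Perm S) : Prop := {x | ¬ Loc f x}.Finite

theorem IsIET.good {f : Equiv.Perm S} (hf : IsIET f) : Good f := by
  obtain ⟨F, hF, h⟩ := hf
  refine hF.subset fun x hx => ?_
  by_contra hxF
  obtain ⟨c, h1 | h1⟩ := h x hxF
  · exact hx ⟨Homeomorph.addRight c, measurePreserving_add_right _ c,
      measurePreserving_add_right _ (-c), h1⟩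
  · refine hx ⟨(Homeomorph.neg S).trans (Homeomorph.addRight c),
      (measurePreserving_add_right _ c).comp (Measure.measurePreserving_neg _),
      (Measure.measurePreserving_neg _).comp (measurePreserving_add_right _ (-c)), h1⟩

theorem Loc.symm {f : Equiv.Perm S} {x : S} (h : Loc f x) : Loc f.symm (f x) := by
  obtain ⟨h, h1, h2, h3⟩ := h
  refine ⟨h.symm, h2, h1, ?_⟩
  have h4 : f x = h x := h3.self_of_nhds
  have h5 : Tendsto h.symm (𝓝 (f x)) (𝓝 x) := by
    have := h.symm.continuous.tendsto (f x)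
    rwa [h4, h.symm_apply_apply, ← h4] at this
  filter_upwards [h5.eventually h3] with y hy
  rw [h.apply_symm_apply] at hy
  rw [Equiv.symm_apply_eq, hy]

theorem Good.symm {f : Equiv.Perm S} (h : Good f) : Good f.symm := by
  refine (Set.Finite.image f h).subset fun y hy => ⟨f.symm y, fun h1 => hy ?_, by simp⟩
  simpa using h1.symm

/-- continuous outside a finite set -/
def PC (f : Equiv.Perm S) : Prop := {x | ¬ ContinuousAt f x}.Finite

theorem Good.pc {f : Equiv.Perm S} (h : Good f) : PC f := by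
  refine Set.Finite.subset h fun x hx h1 => hx ?_
  obtain ⟨g, -, -, h2⟩ := h1
  exact g.continuous.continuousAt.congr (EventuallyEq.symm h2)

theorem PC.measurable {f : Equiv.Perm S} (h : PC f) : Measurable f :=
  measurable_of_countable_not_continuousAt (Set.Finite.countable h)

theorem Good.mp {f : Equiv.Perm S} (h : Good f) : MeasurePreserving f := by
  refine ⟨h.pc.measurable, ?_⟩
  have hs := h.symm
  set W : Set S := {y | Loc f.symm y} with hW
  have h1 : ∀ y ∈ W, ∃ V ∈ 𝓝 y, (Measure.map f volume).restrict V = volume.restrict V := by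
    rintro y ⟨g, g1, g2, g3⟩
    obtain ⟨V, hV1, hV2, hV3⟩ := mem_nhds_iff.1 g3
    refine ⟨V, hV2.mem_nhds hV3, Measure.ext fun A hA => ?_⟩
    have hAV : MeasurableSet (A ∩ V) := hA.inter hV2.measurableSet
    rw [Measure.restrict_apply hA, Measure.restrict_apply hA,
      Measure.map_apply h.pc.measurable hAV, ← g2.measure_preimage hAV.nullMeasurableSet]
    congr 1
    ext x
    constructor
    · intro hx
      have : f.symm (f x) = g (f x) := hV1 hx.2
      rw [f.symm_apply_apply] at this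
      have h7 : g.symm x = f x := by rw [Homeomorph.symm_apply_eq]; exact this
      rw [mem_preimage, h7]
      exact hx
    · intro hx
      have : f.symm (g.symm x) = g (g.symm x) := hV1 hx.2
      rw [g.apply_symm_apply, Equiv.symm_apply_eq] at this
      rw [mem_preimage, ← this]
      exact hx
  choose! V hV1 hV2 using h1
  obtain ⟨t, ht1, ht2, ht3⟩ := TopologicalSpace.countable_cover_nhdsWithin (s := W) (f := V)
    fun y hy => mem_nhdsWithin_of_mem_nhds (hV1 y hy)
  have h2 : (Measure.map f volume).restrict (⋃ y ∈ t, V y) = volume.restrict (⋃ y ∈ t, V y) :=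
    (Measure.restrict_biUnion_congr ht2).2 fun y hy => hV2 y (ht1 hy)
  have hfin : (⋃ y ∈ t, V y)ᶜ.Finite := Set.Finite.subset hs (compl_subset_compl.2 ht3)
  rw [Measure.restrict_eq_self_of_ae_mem, Measure.restrict_eq_self_of_ae_mem] at h2
  · exact h2
  · exact hfin.measure_zero _
  · change (Measure.map f volume) (⋃ y ∈ t, V y)ᶜ = 0
    rw [Measure.map_apply h.pc.measurable hfin.measurableSet]
    exact (hfin.preimage f.injective.injOn).measure_zero _

theorem PC.mul {f g : Equiv.Perm S} (hf : PC f) (hg : PC g) : PC (f * g) := by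
  refine (Set.Finite.union hg (Set.Finite.preimage g.injective.injOn hf)).subset fun x hx => ?_
  by_contra h
  simp only [mem_union, mem_setOf_eq, mem_preimage, not_or, not_not] at h
  exact hx (ContinuousAt.comp (f := g) (g := f) h.2 h.1)

/-- the group of piecewise continuous permutations -/
def Γ : Subgroup (Equiv.Perm S) where
  carrier := {f | PC f ∧ PC f⁻¹}
  mul_mem' := fun {f g} hf hg => ⟨hf.1.mul hg.1, by rw [mul_inv_rev]; exact hg.2.mul hf.2⟩
  one_mem' := ⟨by simp [PC, continuousAt_id], by simp [PC, continuousAt_id]⟩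
  inv_mem' := fun {f} hf => ⟨hf.2, by rw [inv_inv]; exact hf.1⟩

theorem map_punct {f : Equiv.Perm S} {x : S} (h1 : ContinuousAt f x)
    (h2 : ContinuousAt f.symm (f x)) : map f (𝓝[≠] x) = 𝓝[≠] (f x) := by
  have key : ∀ (g : Equiv.Perm S) (y : S), ContinuousAt g y →
      Tendsto g (𝓝[≠] y) (𝓝[≠] (g y)) := fun g y hg =>
    tendsto_nhdsWithin_iff.2 ⟨hg.tendsto.mono_left nhdsWithin_le_nhds,
      eventually_nhdsWithin_of_forall fun z hz h => hz (g.injective h)⟩
  refine le_antisymm (key f x h1) ?_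
  have h3 := key f.symm (f x) h2
  rw [f.symm_apply_apply] at h3
  have h4 := map_mono (m := f) h3
  rwa [map_map, f.self_comp_symm, map_id] at h4

theorem mk_S : Cardinal.mk S ≤ 𝔠 := by
  rw [← Cardinal.mk_real]
  exact mk_le_of_surjective (f := fun x : ℝ => (x : S)) QuotientAddGroup.mk_surjective

theorem mk_Γ : Cardinal.mk Γ ≤ 𝔠 := by
  classical
  obtain ⟨q, hq⟩ := TopologicalSpace.exists_dense_seq S
  let c : Γ → (ℕ → S) × Finset (S × S) := fun f =>
    (fun n => f.1 (q n), (Set.Finite.toFinset f.2.1).image fun x => (x, f.1 x))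
  have hc : Function.Injective c := by
    intro f g h
    have h1 : ∀ n, f.1 (q n) = g.1 (q n) := congrFun (congrArg Prod.fst h)
    have h2 : ∀ p, (∃ x, ¬ ContinuousAt f.1 x ∧ (x, f.1 x) = p) ↔
        ∃ x, ¬ ContinuousAt g.1 x ∧ (x, g.1 x) = p := fun p => by
      have := Finset.ext_iff.1 (congrArg Prod.snd h) p
      simpa [c] using this
    ext x
    by_cases hf : ContinuousAt f.1 x
    · by_cases hg : ContinuousAt g.1 x
      · haveI : (𝓝[range q] x).NeBot := mem_closure_iff_nhdsWithin_neBot.1 (hq x)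
        refine tendsto_nhds_unique_of_eventuallyEq (l := 𝓝[range q] x)
          (hf.tendsto.mono_left nhdsWithin_le_nhds) (hg.tendsto.mono_left nhdsWithin_le_nhds) ?_
        refine eventually_nhdsWithin_of_forall ?_
        rintro _ ⟨n, rfl⟩
        exact h1 n
      · obtain ⟨y, -, hy⟩ := (h2 _).2 ⟨x, hg, rfl⟩
        obtain ⟨rfl, h3⟩ := Prod.mk.inj hy
        exact h3
    · obtain ⟨y, -, hy⟩ := (h2 _).1 ⟨x, hf, rfl⟩
      obtain ⟨rfl, h3⟩ := Prod.mk.inj hy
      exact h3.symm
  refine (mk_le_of_injective hc).trans ?_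
  have h1 : Cardinal.mk (ℕ → S) ≤ 𝔠 := by
    rw [← Cardinal.power_def, mk_nat, ← continuum_power_aleph0]
    exact power_le_power_right mk_S
  have h2 : Cardinal.mk (Finset (S × S)) ≤ 𝔠 := by
    rw [mk_finset_of_infinite, mk_prod, lift_id, ← continuum_mul_self]
    exact mul_le_mul' mk_S mk_S
  rw [mk_prod, lift_id, lift_id, ← continuum_mul_self]
  exact mul_le_mul' h1 h2

/-- the completed space -/
def X : Set (Filter S) := range fun p : Γ × S => map p.1.1 (𝓝[≠] p.2)

theorem mk_X : Cardinal.mk X ≤ 𝔠 := by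
  refine mk_range_le.trans ?_
  rw [mk_prod, lift_id, lift_id, ← continuum_mul_self]
  exact mul_le_mul' mk_Γ mk_S

instance : MulAction Γ X where
  smul f F := ⟨map f.1 F.1, by
    obtain ⟨_, ⟨g, x⟩, rfl⟩ := F
    exact ⟨(f * g, x), rfl⟩⟩
  one_smul F := Subtype.ext map_id
  mul_smul _ _ _ := rfl

theorem smul_val (f : Γ) (F : X) : (f • F).1 = map f.1 F.1 := rfl

theorem le_cofinite (F : X) : F.1 ≤ cofinite := by
  obtain ⟨_, ⟨g, x⟩, rfl⟩ := F
  exact (map_mono (nhdsNE_le_cofinite x)).trans g.1.injective.tendsto_cofinite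

/-- the embedding of the circle -/
def emb (x : S) : X := ⟨𝓝[≠] x, ⟨(1, x), map_id⟩⟩

theorem emb_inj : Function.Injective emb := by
  intro x y h
  have h1 : 𝓝[≠] x = 𝓝[≠] y := congrArg Subtype.val h
  exact eq_of_nhds_neBot ((inferInstance : (𝓝[≠] x).NeBot).mono
    (le_inf nhdsWithin_le_nhds (h1 ▸ nhdsWithin_le_nhds)))

theorem cantor_null : volume cantorSet = 0 := by
  have h0 : volume cantorSet ≠ ⊤ := isCompact_cantorSet.measure_lt_top.ne
  have h1 : ∀ (c : ℝ), volume ((fun x => (c + x) / 3) '' cantorSet) =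
      ENNReal.ofReal (1 / 3) * volume cantorSet := fun c => by
    have : (fun x => (c + x) / 3) '' cantorSet =
        (fun y => y * 3) ⁻¹' ((fun y => -c + y) ⁻¹' cantorSet) := by
      ext y
      constructor
      · rintro ⟨x, hx, rfl⟩
        simpa using hx
      · intro hy
        exact ⟨_, hy, by ring⟩
    rw [this, Real.volume_preimage_mul_right (by norm_num), measure_preimage_add]
    norm_num
  have h2 := measure_union_le (μ := volume) ((· / 3) '' cantorSet)
    ((fun x => (2 + x) / 3) '' cantorSet)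
  rw [← cantorSet_eq_union_halves, h1 2] at h2
  have h3 := h1 0
  simp only [zero_add] at h3
  rw [h3] at h2
  lift volume cantorSet to NNReal using h0 with v
  rw [← ENNReal.ofReal_coe_nnreal, ← ENNReal.ofReal_mul (by norm_num),
    ← ENNReal.ofReal_add (by positivity) (by positivity),
    ENNReal.ofReal_le_ofReal_iff (by positivity)] at h2
  have h4 : (v : ℝ) = 0 := le_antisymm (by linarith) v.2
  exact_mod_cast h4

theorem exists_null : ∃ Z : Set S, volume Z = 0 ∧ 𝔠 ≤ Cardinal.mk Z := by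
  let C : Set ℝ := (fun y => y * 2) ⁻¹' cantorSet
  have hC : volume C = 0 := by
    rw [Real.volume_preimage_mul_right two_ne_zero, cantor_null, mul_zero]
  have hCc : IsCompact C := (Homeomorph.mulRight₀ (2 : ℝ) two_ne_zero).isCompact_preimage.2
    isCompact_cantorSet
  refine ⟨(fun x : ℝ => (x : S)) '' C, ?_, ?_⟩
  · have hm : MeasurableSet ((fun x : ℝ => (x : S)) '' C) :=
      (hCc.image (AddCircle.continuous_mk' 1)).measurableSet
    rw [← (AddCircle.measurePreserving_mk 1 0).measure_preimage hm.nullMeasurableSet]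
    refine le_antisymm (Measure.restrict_apply_le _ _ |>.trans (le_of_eq ?_)) (zero_le)
    refine measure_mono_null (t := ⋃ n : ℤ, (fun y => (n : ℝ) + y) ⁻¹' C) ?_ ?_
    · rintro y ⟨x, hx, hxy⟩
      obtain ⟨n, hn⟩ := AddSubgroup.mem_zmultiples_iff.1 (QuotientAddGroup.eq.1 hxy.symm)
      refine mem_iUnion.2 ⟨n, ?_⟩
      have : (n : ℝ) + y = x := by
        simp only [zsmul_eq_mul, mul_one] at hn
        linarith
      rw [mem_preimage, this]; exact hx
    · exact measure_iUnion_null fun n => by rw [measure_preimage_add, hC]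
  · have h1 : 𝔠 = Cardinal.mk cantorSet := by rw [mk_congr cantorSetEquivNatToBool]; simp
    rw [h1]
    refine mk_le_of_injective (f := fun x : cantorSet =>
      (⟨((x.1 / 2 : ℝ) : S), x.1 / 2, by simp [C], rfl⟩ : (fun x : ℝ => (x : S)) '' C)) ?_
    intro x y h
    have hx := cantorSet_subset_unitInterval x.2
    have hy := cantorSet_subset_unitInterval y.2
    have h2 := (AddCircle.coe_eq_coe_iff_of_mem_Ico (p := (1 : ℝ)) (a := 0)
      ⟨by linarith [hx.1], by linarith [hx.2]⟩ ⟨by linarith [hy.1], by linarith [hy.2]⟩).1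
      (congrArg Subtype.val h)
    exact Subtype.ext (by linarith)

theorem exists_equiv : ∃ (Z : Set S) (β : S ≃ X), volume Z = 0 ∧ ∀ x, x ∉ Z → β x = emb x := by
  obtain ⟨Z, hZ, hc⟩ := exists_null
  let e : (Zᶜ : Set S) ↪ X := ⟨fun x => emb x, emb_inj.comp Subtype.val_injective⟩
  obtain ⟨β, hβ⟩ := Cardinal.extend_function e (by
    rw [← Cardinal.eq, compl_compl]
    refine le_antisymm (mk_le_of_injective (f := fun x : Z => (⟨emb x, ?_⟩ : ((range e)ᶜ : Set X)))
      ?_) (((mk_set_le _).trans mk_X).trans hc)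
    · rintro ⟨y, hy⟩
      exact y.2 (emb_inj hy ▸ x.2)
    · intro x y h
      exact Subtype.ext (emb_inj (congrArg Subtype.val h)))
  exact ⟨Z, β, hZ, fun x hx => hβ ⟨x, hx⟩⟩

theorem result : ∃ σ : Equiv.Perm S → Equiv.Perm S,
    (∀ f g, IsIET f → IsIET g → σ (f * g) = σ f * σ g) ∧
    (∀ f g, IsIET f → IsIET g → {x | f x ≠ g x}.Finite → σ f = σ g) ∧
    (∀ f, IsIET f → InGhat (σ f)) ∧
    ∀ f, IsIET f → ∀ᵐ x, σ f x = f x := by
  classical
  obtain ⟨Z, β, hZ, hβ⟩ := exists_equiv
  let τ : Γ →* Equiv.Perm S := β.symm.permCongrHom.toMonoidHom.comp (MulAction.toPermHom Γ X)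
  have hτ : ∀ f x, τ f x = β.symm (f • β x) := fun _ _ => rfl
  clear_value τ
  have hmem : ∀ f, Good f → f ∈ Γ := fun f hf => ⟨hf.pc, hf.symm.pc⟩
  have hae : ∀ f (hf : Good f), ∀ᵐ x, τ ⟨f, hmem f hf⟩ x = f x := by
    intro f hf
    have h1 : ∀ᵐ x : S, x ∉ Z := measure_eq_zero_iff_ae_notMem.1 hZ
    have h2 : ∀ᵐ x : S, f x ∉ Z := hf.mp.quasiMeasurePreserving.ae (p := fun x => x ∉ Z) h1
    have h3 : ∀ᵐ x : S, ContinuousAt f x := ae_iff.2 (Set.Finite.measure_zero hf.pc _)
    have h4 : ∀ᵐ x : S, ContinuousAt f.symm x :=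
      ae_iff.2 (Set.Finite.measure_zero hf.symm.pc _)
    filter_upwards [h1, h2, h3, hf.mp.quasiMeasurePreserving.ae
      (p := fun x => ContinuousAt f.symm x) h4] with x a b c d
    rw [hτ, Equiv.symm_apply_eq, hβ x a, hβ _ b]
    exact Subtype.ext (map_punct c d)
  have hpre : ∀ f (hf : Good f) (A : Set S), NullMeasurableSet A volume →
      NullMeasurableSet (τ ⟨f, hmem f hf⟩ ⁻¹' A) volume ∧
        volume (τ ⟨f, hmem f hf⟩ ⁻¹' A) = volume A := by
    intro f hf A hA
    have h1 : f ⁻¹' A =ᵐ[volume] τ ⟨f, hmem f hf⟩ ⁻¹' A := by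
      filter_upwards [hae f hf] with x hx
      change (f x ∈ A) = (τ ⟨f, hmem f hf⟩ x ∈ A)
      rw [hx]
    exact ⟨(hA.preimage hf.mp.quasiMeasurePreserving).congr h1,
      by rw [← measure_congr h1, hf.mp.measure_preimage hA]⟩
  refine ⟨fun f => if h : f ∈ Γ then τ ⟨f, h⟩ else 1, fun f g hf hg => ?_,
    fun f g hf hg h => ?_, fun f hf => ?_, fun f hf => ?_⟩
  · have h1 := hmem f hf.good
    have h2 := hmem g hg.good
    simp only [dif_pos h1, dif_pos h2, dif_pos (Γ.mul_mem h1 h2)]
    rw [← map_mul]; rfl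
  · simp only [dif_pos (hmem f hf.good), dif_pos (hmem g hg.good)]
    ext x
    rw [hτ, hτ]
    congr 1
    refine Subtype.ext (Filter.map_congr ?_)
    exact le_cofinite (β x) h
  · simp only [dif_pos (hmem f hf.good)]
    refine ⟨hpre f hf.good, fun A hA => ?_⟩
    have h1 : (τ ⟨f, hmem f hf.good⟩).symm = τ ⟨f.symm, hmem _ hf.good.symm⟩ :=
      (MonoidHom.map_inv τ ⟨f, hmem f hf.good⟩).symm
    rw [h1]
    exact (hpre _ hf.good.symm A hA).1
  · simp only [dif_pos (hmem f hf.good)]
    exact hae f hf.good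

end Pool.Agent.Results.MP_83934b_an.Splits
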